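import Mathlib

/-!
Rosenthal's disjointness lemma.
-/

set_option autoImplicit false

open scoped ENNReal

namespace Pool.Agent.Helper6.TGC

/-- **Rosenthal's lemma.**  Induction on `n`.  For `n = 0` take `g = id`.  For the step let
`M p = {pair p q | q}`.  If for some `p` every `q` satisfies
`∑' q' ≠ q, m (pair p q) (pair p q') ≤ ε`, take `g q = pair p q`.  Otherwise for every `p` there is
`q p` with `ε < ∑' q' ≠ q p, m (pair p (q p)) (pair p q')`; put `k p = pair p (q p)`; the row sums of
`m (k p) (k p')` off the diagonal are at most `(n + 1) ε - ε`; use the induction hypothesis. -/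
theorem rosenthal (ε : ℝ≥0∞) (hε : ε ≠ ∞) (n : ℕ) (m : ℕ → ℕ → ℝ≥0∞)
    (h : ∀ j, ∑' i, (if i = j then 0 else m j i) ≤ n * ε) :
    ∃ g : ℕ → ℕ, Function.Injective g ∧
      ∀ j, ∑' i, (if i = j then 0 else m (g j) (g i)) ≤ ε := by
  induction n generalizing m with
  | zero =>
    refine ⟨id, Function.injective_id, fun j => (h j).trans ?_⟩
    rw [Nat.cast_zero, zero_mul]
    exact zero_le
  | succ n ih =>
    by_cases hA : ∃ p, ∀ q, ∑' q', (if q' = q then 0 else m (Nat.pair p q) (Nat.pair p q')) ≤ ε
    · obtain ⟨p, hp⟩ := hA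
      refine ⟨Nat.pair p, fun a b hab => ?_, hp⟩
      exact (Nat.pair_eq_pair.1 hab).2
    push Not at hA
    choose q hq using hA
    have hk : Function.Injective fun p => Nat.pair p (q p) := fun a b hab =>
      (Nat.pair_eq_pair.1 hab).1
    obtain ⟨g, hg, hg2⟩ := ih (fun p p' => m (Nat.pair p (q p)) (Nat.pair p' (q p'))) (by
      intro p
      set F : ℕ → ℝ≥0∞ := fun i => if i = Nat.pair p (q p) then 0 else m (Nat.pair p (q p)) i
        with hF
      set G1 : ℕ → ℝ≥0∞ := fun i => if (Nat.unpair i).1 = p then 0 else F i with hG1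
      set G2 : ℕ → ℝ≥0∞ := fun i => if (Nat.unpair i).1 = p then F i else 0 with hG2
      have h1 : ∑' p', (if p' = p then 0 else
          m (Nat.pair p (q p)) (Nat.pair p' (q p'))) ≤ ∑' i, G1 i := by
        refine le_trans (le_of_eq ?_) (ENNReal.tsum_comp_le_tsum_of_injective hk G1)
        refine tsum_congr fun p' => ?_
        simp only [hG1, hF, Nat.unpair_pair, Nat.pair_eq_pair]
        by_cases hp : p' = p
        · simp [hp]
        · simp [hp]
      have h2 : ∑' q', (if q' = q p then 0 else
          m (Nat.pair p (q p)) (Nat.pair p q')) ≤ ∑' i, G2 i := by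
        have hk2 : Function.Injective (Nat.pair p) := fun a b hab => (Nat.pair_eq_pair.1 hab).2
        refine le_trans (le_of_eq ?_) (ENNReal.tsum_comp_le_tsum_of_injective hk2 G2)
        refine tsum_congr fun q' => ?_
        simp [hG2, hF, Nat.unpair_pair, Nat.pair_eq_pair]
      have h3 : ∑' i, G1 i + ∑' i, G2 i = ∑' i, F i := by
        rw [← ENNReal.tsum_add]
        refine tsum_congr fun i => ?_
        by_cases hi : (Nat.unpair i).1 = p
        · simp [hG1, hG2, hi]
        · simp [hG1, hG2, hi]
      have h4 := h (Nat.pair p (q p))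
      rw [Nat.cast_succ, add_mul, one_mul] at h4
      have h5 : ∑' p', (if p' = p then 0 else
          m (Nat.pair p (q p)) (Nat.pair p' (q p'))) + ε ≤ n * ε + ε :=
        calc _ ≤ ∑' i, G1 i + ∑' i, G2 i := add_le_add h1 ((hq p).le.trans h2)
          _ = ∑' i, F i := h3
          _ ≤ _ := h4
      exact (ENNReal.add_le_add_iff_right hε).1 h5)
    exact ⟨fun j => Nat.pair (g j) (q (g j)), hk.comp hg, hg2⟩

end Pool.Agent.Helper6.TGC
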